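import Mathlib
import Pool.Agent.H.MP_ff8adc_an.D

set_option autoImplicit false

open Filter Topology Set Function MeasureTheory Complex Pool.Agent.H.MP_ff8adc_an

namespace Pool.Agent.Results.MP_ff8adc_an.No

theorem good {e : ℝ} (he : e ∈ Icc (0.0008 : ℝ) 0.0012) : Good (1 - e) I := by
  have h1 := Real.pi_lt_d2
  have e0 : 0 < e := by linarith [he.1]
  have h2 : Real.sin ((1 - e) * Real.pi) = Real.sin (e * Real.pi) := by
    rw [sub_mul, one_mul, Real.sin_pi_sub]
  have h3 := Real.abs_sin_le_abs (x := e * Real.pi)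
  rw [abs_of_pos (show 0 < e * Real.pi by positivity), ← h2, abs_le] at h3
  refine ⟨by linarith [he.2], norm_I, ?_, ?_⟩
  · rw [om, ← ofReal_mul, mul_re, exp_ofReal_mul_I_im]
    simp only [conj_I, neg_re, I_re, neg_im, I_im]
    nlinarith [he.2]
  · rw [om', ← ofReal_mul, ← neg_mul, ← ofReal_neg, mul_re, exp_ofReal_mul_I_im, Real.sin_neg]
    simp only [conj_I, neg_re, I_re, neg_im, I_im]
    nlinarith [he.2]

noncomputable def dd (e : ℝ) : ℝ := Real.pi / (2 * (1 - e)) - Real.pi / 2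

noncomputable def Z (p : ℝ × ℝ) : ℂ :=
  (1 / (1 - p.1) : ℝ) * exp (TT p.2 * (I * exp (dd p.1 * I))) -
    I * SS p.1 * JJ (TT p.2) (1 - p.1) (1 - p.1) I

theorem rep {e v : ℝ} (he : e ∈ Icc (0.0008 : ℝ) 0.0012) (hτ : 0 < TT v) :
    HasSum (fun k : ℕ => (I * (TT v ^ (1 - e) : ℝ)) ^ k / (Real.Gamma ((1 - e) * k + 1) : ℝ))
      (Z (e, v)) := by
  have G := good he
  have hπ := Real.pi_pos
  have a0 := G.pos
  have e1 := he.1
  have e2 := he.2
  set w : ℂ := (Real.pi / (2 * (1 - e)) : ℝ) * I with hw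
  have a1 : ((1 - e : ℝ) : ℂ) ≠ 0 := ofReal_ne_zero.2 a0.ne'
  have h0 : ((1 - e : ℝ) : ℂ) * w = Real.pi / 2 * I := by
    rw [hw, ofReal_div, ofReal_mul]; field_simp; simp
  have h1 : exp ((1 - e : ℝ) * w) = I := by rw [h0, exp_pi_div_two_mul_I]
  have h2 : exp w = I * exp (dd e * I) := by
    nth_rw 1 [← exp_pi_div_two_mul_I]
    rw [← exp_add, hw, dd]; congr 1; push_cast; ring
  have hr : ∀ a < 0, Rect (gg (TT v) (1 - e) 1 I) a 1 (-Real.pi) Real.pi =
      2 * Real.pi * I * (ee (TT v) (1 + (1 - e) - 1) w / ((1 - e : ℝ) * I)) := by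
    intro a ha
    have := rect_pole (ee_diff (TT v) (1 + (1 - e) - 1)) a0.ne' (a := a) (b := 1) (c := -Real.pi)
      (d := Real.pi) (w := w) (by rw [hw, mul_I_re, ofReal_im]; linarith)
      (by rw [hw, mul_I_re, ofReal_im]; linarith)
      (by rw [hw, mul_I_im, ofReal_re]; exact lt_trans (by linarith) (div_pos hπ (by linarith)))
      (by rw [hw, mul_I_im, ofReal_re, div_lt_iff₀ (by linarith)]; nlinarith) (fun s hs h => by
        obtain ⟨n, hn⟩ := exp_eq_exp_iff_exists_int.1 h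
        have hi := congrArg im hn
        rw [h0] at hi
        rw [uIcc_of_le (by linarith)] at hs
        simp at hi
        have n1 : (n : ℝ) < 1 := by nlinarith [hs.2]
        have n2 : (-1 : ℝ) < n := by nlinarith [hs.1]
        have : n = 0 := by
          have : n < 1 := by exact_mod_cast n1
          have : -1 < n := by exact_mod_cast n2
          omega
        rw [this] at hn
        exact mul_left_cancel₀ a1 (by simpa using hn))
    rw [h1] at this
    exact this
  have h := hs_E hτ a0 one_pos norm_I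
  rw [hk_rep G hτ (by linarith) hr, show 1 + (1 - e) - 1 = 1 - e by ring, om_sub, ee, exp_add, h1,
    h2, sub_mul 1 e, one_mul, Real.sin_pi_sub] at h
  have hπ' : (Real.pi : ℂ) ≠ 0 := ofReal_ne_zero.2 hπ.ne'
  refine hs_of h ?_
  simp only [Z, SS, sub_self, Real.rpow_zero, ofReal_one, ofReal_div]
  field_simp
  ring_nf

theorem result : ∃ α ∈ Ioo (3 / 5 : ℝ) 1, ∃ t : ℝ,
    HasSum (fun k : ℕ => (I * t) ^ k / (Real.Gamma (α * k + 1) : ℂ)) 0 := by
  refine (box Z ?_ ?_).elim (fun e ⟨he, v, hv, h⟩ => ⟨1 - e, ⟨by linarith [he.2],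
    by linarith [he.1]⟩, _, h ▸ rep he (by linarith [(TT_bd hv).1])⟩)
  · have hne : ∀ p ∈ Icc (0.0008 : ℝ) 0.0012 ×ˢ Icc (-1 : ℝ) 1, 1 - p.1 ≠ 0 :=
      fun p hp => (good hp.1).pos.ne'
    have c := JJ_cont (s := Icc 0.0008 0.0012 ×ˢ Icc (-1) 1) (τ := fun p => TT p.2)
      (a := fun p => 1 - p.1) (α := fun p => 1 - p.1) (l := fun _ => I) (by unfold TT; fun_prop)
      (by fun_prop) (by fun_prop) (by fun_prop) (fun p hp => ⟨good hp.1,
        by linarith [(TT_bd hp.2).1], by linarith [hp.1.2], by linarith [hp.1.1]⟩)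
    have c1 : ContinuousOn (fun p : ℝ × ℝ => 1 / (1 - p.1))
      (Icc 0.0008 0.0012 ×ˢ Icc (-1) 1) := ContinuousOn.div (by fun_prop) (by fun_prop) hne
    have c2 : ContinuousOn (fun p : ℝ × ℝ => dd p.1) (Icc 0.0008 0.0012 ×ˢ Icc (-1) 1) :=
      (ContinuousOn.div (by fun_prop) (by fun_prop)
        (fun p hp => mul_ne_zero two_ne_zero (hne p hp))).sub continuousOn_const
    have c3 := TT_cont
    have c4 := SS_cont
    exact ((continuous_ofReal.comp_continuousOn c1).mul (by fun_prop)).sub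
      (ContinuousOn.mul (by fun_prop) c)
  · intro e he v hv
    obtain ⟨t1, t2⟩ := TT_bd hv
    obtain ⟨s1, s2⟩ := SS_bd he
    have e1 := he.1
    have e2 := he.2
    have := Real.pi_gt_d4
    have := Real.pi_lt_d4
    refine ⟨1 / (1 - e), dd e, -(I * SS e * (JJ (TT v) (1 - e) (1 - e) I - PP e (TT v) / I ^ 2)),
      ?_, ?_, ?_, ?_, ?_, ?_⟩
    · rw [Z, I_sq]; push_cast; ring
    · rw [le_div_iff₀ (by linarith)]; linarith
    · rw [div_le_iff₀ (by linarith)]; linarith
    · rw [dd, le_sub_iff_add_le, le_div_iff₀ (by linarith)]; nlinarith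
    · rw [dd, sub_le_iff_le_add, div_le_iff₀ (by linarith)]; nlinarith
    · have j := JJ_est (good he) (τ := TT v) (a := 1 - e) (by linarith) (by linarith)
      have r := rp_le (τ := TT v) (a := 1 - e + (1 - e)) 2 (by linarith) (by linarith)
        (by push_cast; linarith)
      have g := G12 (x := 1 - e + (1 - e)) (by linarith) (by linarith)
      have g0 := Real.Gamma_pos_of_pos (show 0 < 1 - e + (1 - e) by linarith)
      rw [norm_neg, norm_mul, norm_mul, norm_I, norm_real, Real.norm_eq_abs,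
        abs_of_pos (by linarith), PP]
      have := mul_le_mul r g g0.le (by norm_num)
      nlinarith [norm_nonneg (JJ (TT v) (1 - e) (1 - e) I -
        ((1 / TT v) ^ (1 - e) * Real.Gamma (1 - e) : ℝ) / I ^ 2)]

end Pool.Agent.Results.MP_ff8adc_an.No
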